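import Mathlib

open scoped commutatorElement

namespace Pool.Agent.Results.MP_73c65d_al.FinitelyMany

/-- `n ≥ 3` is admissible for `p, q, r, u`. -/
def Admissible (p q r : ℕ) (u : FreeGroup (Fin 3)) (n : ℕ) : Prop :=
  3 ≤ n ∧ ∃ ξ η ζ : alternatingGroup (Fin n), Subgroup.closure {ξ, η, ζ} = ⊤ ∧
    ξ ^ p = 1 ∧ η ^ q = 1 ∧ ζ ^ r = 1 ∧ ξ * η * ζ * FreeGroup.lift ![ξ, η, ζ] u = 1

/-- Remove the first list from the start of the second. -/
def strip : List ℕ → List ℕ → Option (List ℕ)
  | [], w => some w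
  | _ :: _, [] => none
  | a :: l, b :: w => if a = b then strip l w else none

/-- Rewrite at the start of a word. -/
def atHead : List (List ℕ × List ℕ) → List ℕ → Option (List ℕ)
  | [], _ => none
  | ρ :: R, w => match strip ρ.1 w with
    | some s => some (ρ.2 ++ s)
    | none => atHead R w

/-- One rewriting step. -/
def step (R : List (List ℕ × List ℕ)) : List ℕ → Option (List ℕ)
  | [] => none
  | a :: w => match atHead R (a :: w) with
    | some v => some v
    | none => (step R w).map (a :: ·)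

/-- Iterated rewriting. -/
def norm (R : List (List ℕ × List ℕ)) : ℕ → List ℕ → List ℕ
  | 0, w => w
  | k + 1, w => match step R w with
    | some v => norm R k v
    | none => w

/-- Add the rule obtained from a critical pair, if the pair is correct. -/
def addRule (R : List (List ℕ × List ℕ))
    (c : List ℕ × ℕ × List ℕ × List ℕ × ℕ × List ℕ) : List (List ℕ × List ℕ) :=
  let ρ := R.getD c.2.1 ([], [])
  let σ := R.getD c.2.2.2.2.1 ([], [])
  if c.1 ++ ρ.1 ++ c.2.2.1 = c.2.2.2.1 ++ σ.1 ++ c.2.2.2.2.2 then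
    let u := norm R 60 (c.1 ++ ρ.2 ++ c.2.2.1)
    let v := norm R 60 (c.2.2.2.1 ++ σ.2 ++ c.2.2.2.2.2)
    R ++ [if u.length < v.length ∨ (u.length = v.length ∧ u < v) then (v, u) else (u, v)]
  else R

variable {G : Type} [Group G] (f : ℕ → G)

/-- The value of a word. -/
def ev (w : List ℕ) : G := (w.map f).prod

lemma ev_append (u v : List ℕ) : ev f (u ++ v) = ev f u * ev f v := by simp [ev]

lemma strip_spec : ∀ (l w s : List ℕ), strip l w = some s → w = l ++ s
  | [], w, s, h => by simpa [strip] using h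
  | _ :: _, [], s, h => by simp [strip] at h
  | a :: l, b :: w, s, h => by
    unfold strip at h
    split_ifs at h with e
    rw [e, strip_spec l w s h]
    rfl

/-- All rules are valid. -/
def Valid (R : List (List ℕ × List ℕ)) : Prop := ∀ ρ ∈ R, ev f ρ.1 = ev f ρ.2

lemma atHead_spec (R : List (List ℕ × List ℕ)) (hR : Valid f R) (w v : List ℕ)
    (h : atHead R w = some v) : ev f v = ev f w := by
  induction R with
  | nil => simp [atHead] at h
  | cons ρ R ih =>
    unfold atHead at h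
    split at h
    · rename_i s hs
      rw [strip_spec _ _ _ hs, ← Option.some.inj h, ev_append, ev_append, hR ρ (by simp)]
    · exact ih (fun σ hσ => hR σ (by simp [hσ])) h

lemma step_spec (R : List (List ℕ × List ℕ)) (hR : Valid f R) (w v : List ℕ)
    (h : step R w = some v) : ev f v = ev f w := by
  induction w generalizing v with
  | nil => simp [step] at h
  | cons a w ih =>
    unfold step at h
    split at h
    · rename_i s hs
      rw [← Option.some.inj h]
      exact atHead_spec f R hR _ _ hs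
    · obtain ⟨s, hs, rfl⟩ := Option.map_eq_some_iff.1 h
      have := ih s hs
      simp only [ev, List.map_cons, List.prod_cons] at this ⊢
      rw [this]

lemma norm_spec (R : List (List ℕ × List ℕ)) (hR : Valid f R) (k : ℕ) (w : List ℕ) :
    ev f (norm R k w) = ev f w := by
  induction k generalizing w with
  | zero => rfl
  | succ k ih =>
    unfold norm
    split
    · rename_i v hv
      rw [ih, step_spec f R hR _ _ hv]
    · rfl

lemma getD_valid (R : List (List ℕ × List ℕ)) (hR : Valid f R) (i : ℕ) :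
    ev f (R.getD i ([], [])).1 = ev f (R.getD i ([], [])).2 := by
  rw [List.getD_eq_getElem?_getD]
  rcases h : R[i]? with _ | ρ
  · rfl
  · exact hR ρ (List.mem_of_getElem? h)

lemma addRule_valid (R : List (List ℕ × List ℕ)) (hR : Valid f R) (c) : Valid f (addRule R c) := by
  unfold addRule
  dsimp only
  split_ifs with h h'
  all_goals try exact hR
  all_goals
    have e := congrArg (ev f) h
    simp only [ev_append, getD_valid f R hR] at e
    intro ρ hρ
    rcases List.mem_append.1 hρ with hρ | hρ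
    · exact hR ρ hρ
    · rw [List.mem_singleton.1 hρ]
      simp only [norm_spec f R hR, ev_append, e]

lemma foldl_valid (C) (R : List (List ℕ × List ℕ)) (hR : Valid f R) :
    Valid f (List.foldl addRule R C) := by
  induction C generalizing R with
  | nil => exact hR
  | cons c C ih => exact ih _ (addRule_valid f R hR c)

/-- The defining relations. -/
def base : List (List ℕ × List ℕ) :=
  [([0, 0], []), ([1, 2], []), ([2, 1], []), ([1, 1], [2]), ([0, 1, 0, 1, 0, 1, 0, 1, 0, 1], [])]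

/-- The critical pairs. -/
def cert : List (List ℕ × ℕ × List ℕ × List ℕ × ℕ × List ℕ) := [([],2,[1],[2],3,[]), ([],4,[2],[0,1,0,1,0,1,0,1,0],1,[]), ([],6,[0],[0,1,0,1,0,1,0,1],0,[]), ([],4,[0,1,0,1,0,1],[0,1,0,1,0,1,0,1],7,[]), ([],0,[1,0,1,0,1],[0],8,[]), ([],4,[0,1,0,1,0],[0,1,0,1,0,1],6,[]), ([],8,[1],[0,1,0,1,0],3,[]), ([],0,[1,0,1,0,2],[0],11,[]), ([],3,[0,1,0,1],[1],9,[]), ([],5,[0,2,0,2],[2],10,[]), ([],12,[0,1,0],[0,2,0],14,[]), ([],11,[0,2,0],[0,1,0],13,[]), ([],3,[0,1,0,2,0,1,0],[1],15,[]), ([],5,[0,2,0,1,0,2,0],[2],16,[]), ([],13,[1,0,1,0,2],[1,0,2,0,2],11,[]), ([],15,[2,0,2],[1,0],17,[])]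

/-- The normal forms. -/
def nfs : List (List ℕ) := [[], [0], [1], [0,1], [1,0], [2], [0,1,0], [0,2], [1,0,1], [2,0], [0,1,0,1], [0,2,0], [1,0,1,0], [1,0,2], [2,0,1], [0,1,0,1,0], [0,1,0,2], [0,2,0,1], [0,2,0,2,0], [1,0,2,0], [2,0,1,0], [2,0,2], [2,0,2,0], [0,1,0,2,0], [0,2,0,1,0], [0,2,0,2], [1,0,1,0,2], [1,0,2,0,1], [2,0,1,0,1], [2,0,2,0,1], [0,1,0,2,0,1], [0,2,0,1,0,1], [1,0,1,0,2,0], [1,0,2,0,1,0], [1,0,2,0,2], [2,0,1,0,2], [2,0,2,0,1,0], [0,1,0,2,0,1,0], [0,1,0,2,0,2], [0,2,0,1,0,2], [1,0,1,0,2,0,1], [1,0,2,0,1,0,1], [2,0,1,0,2,0], [2,0,2,0,1,0,1], [0,1,0,2,0,1,0,1], [0,2,0,1,0,2,0], [0,2,0,1,0,2,0,2], [1,0,1,0,2,0,2], [1,0,2,0,1,0,2], [2,0,1,0,2,0,1], [2,0,1,0,2,0,2], [2,0,2,0,1,0,2], [0,1,0,2,0,1,0,2], [0,2,0,1,0,2,0,1], [1,0,2,0,1,0,2,0], [2,0,1,0,2,0,1,0], [0,1,0,2,0,1,0,2,0], [0,2,0,1,0,2,0,1,0], [1,0,2,0,1,0,2,0,1], [0,1,0,2,0,1,0,2,0,1]]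

lemma closed : ∀ w ∈ nfs, norm (List.foldl addRule base cert) 60 (w ++ [0]) ∈ nfs ∧
    norm (List.foldl addRule base cert) 60 (w ++ [1]) ∈ nfs := by decide +kernel

lemma card_le [Finite G] (a b : G) (ha : a ^ 2 = 1) (hb : b ^ 3 = 1) (hab : (a * b) ^ 5 = 1)
    (h : Subgroup.closure {a, b} = ⊤) : Nat.card G ≤ 60 := by
  classical
  let f : ℕ → G := fun i => if i = 0 then a else if i = 1 then b else b⁻¹
  have hv : Valid f base := by
    intro ρ hρ
    simp only [base, List.mem_cons, List.not_mem_nil, or_false] at hρ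
    rcases hρ with rfl | rfl | rfl | rfl | rfl
    · simpa [ev, f, pow_two] using ha
    · simp [ev, f]
    · simp [ev, f]
    · simp only [ev, f]
      simp
      rw [eq_inv_iff_mul_eq_one, ← hb]
      simp only [pow_succ, pow_zero, one_mul]
    · simp only [ev, f]
      simp
      rw [← hab]
      simp only [pow_succ, pow_zero, one_mul, mul_assoc]
  have hR := foldl_valid f cert base hv
  have hall : ∀ g : G, ∃ w ∈ nfs, ev f w = g := by
    intro g
    have hg : g ∈ Submonoid.closure ({a, b} : Set G) := by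
      rw [← Subgroup.closure_toSubmonoid_of_finite, h]
      trivial
    induction hg using Submonoid.closure_induction_right with
    | one => exact ⟨[], by simp [nfs], rfl⟩
    | mul_right x _ y hy ih =>
      obtain ⟨w, hw, rfl⟩ := ih
      rcases hy with rfl | rfl
      · exact ⟨_, (closed w hw).1, by rw [norm_spec f _ hR, ev_append]; simp [ev, f]⟩
      · exact ⟨_, (closed w hw).2, by rw [norm_spec f _ hR, ev_append]; simp [ev, f]⟩
  have h1 : (Set.univ : Set G) ⊆ ((nfs.map (ev f)).toFinset : Set G) := by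
    intro g _
    obtain ⟨w, hw, rfl⟩ := hall g
    simpa using ⟨w, hw, rfl⟩
  calc Nat.card G = (Set.univ : Set G).ncard := (Set.ncard_univ G).symm
    _ ≤ ((nfs.map (ev f)).toFinset : Set G).ncard := Set.ncard_le_ncard h1 (Set.toFinite _)
    _ = (nfs.map (ev f)).toFinset.card := Set.ncard_coe_finset _
    _ ≤ (nfs.map (ev f)).length := List.toFinset_card_le _
    _ = 60 := by rw [List.length_map]; rfl

theorem result : ∃ u : FreeGroup (Fin 3), u ∈ commutator (FreeGroup (Fin 3)) ∧ u ≠ 1 ∧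
    ∀ n, Admissible 2 3 5 u n → n ≤ 5 := by
  refine ⟨⁅FreeGroup.of 0 ^ 2, FreeGroup.of 1⁆,
    Subgroup.commutator_mem_commutator (Subgroup.mem_top _) (Subgroup.mem_top _), ?_, ?_⟩
  · intro h
    have := congrArg (FreeGroup.lift ![(c[0, 1, 2] : Equiv.Perm (Fin 3)), Equiv.swap 0 1, 1]) h
    rw [map_commutatorElement, map_pow, FreeGroup.lift_apply_of, FreeGroup.lift_apply_of,
      map_one] at this
    revert this
    decide
  · rintro n ⟨hn, ξ, η, ζ, hg, h1, h2, h3, h4⟩
    rw [map_commutatorElement, map_pow, FreeGroup.lift_apply_of, FreeGroup.lift_apply_of] at h4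
    simp only [Matrix.cons_val_zero, h1, commutatorElement_one_left, mul_one] at h4
    have hζ : ζ = (ξ * η)⁻¹ := eq_inv_of_mul_eq_one_right h4
    have hab : (ξ * η) ^ 5 = 1 := by rwa [hζ, inv_pow, inv_eq_one] at h3
    have hcl : Subgroup.closure {ξ, η} = ⊤ := by
      rw [eq_top_iff, ← hg, Subgroup.closure_le]
      have m1 : ξ ∈ Subgroup.closure {ξ, η} := Subgroup.subset_closure (by simp)
      have m2 : η ∈ Subgroup.closure {ξ, η} := Subgroup.subset_closure (by simp)
      rintro x (rfl | rfl | rfl)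
      · exact m1
      · exact m2
      · rw [hζ]
        exact inv_mem (mul_mem m1 m2)
    have hc := card_le ξ η h1 h2 hab hcl
    haveI : Nontrivial (Fin n) := Fin.nontrivial_iff_two_le.2 (by omega)
    have h5 := two_mul_nat_card_alternatingGroup (α := Fin n)
    rw [Nat.card_perm, Nat.card_eq_fintype_card (α := Fin n), Fintype.card_fin] at h5
    by_contra hlt
    have : Nat.factorial 6 ≤ Nat.factorial n := Nat.factorial_le (by omega)
    have h6 : Nat.factorial 6 = 720 := rfl
    omega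

end Pool.Agent.Results.MP_73c65d_al.FinitelyMany
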